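import Mathlib
import Pool.Agent.Run7.h609.DV.E
import Pool.Agent.Results.MP_e426f4_ag.ProductsOfConics

/-!
# Brauer-Manin obstruction for fibrations in products of conics whose parameters come from all large divisors of almost all
# integers, or from orders modulo primes

Let `W_k : yᵢ² - aᵢ zᵢ² = bᵢ t (f(t) + k) ≠ 0`, `i < r`, as in the starting theorem `ProductsOfConics`, and let `u ≠ 0` and `v` be
integers. Weak approximation of the points orthogonal to the algebras `(aᵢ, t)`, at the primes of `T` and at the real place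
(property `WB`), holds
* for all `n ≤ X` but `O(X / (log X) ^ U)`: for ALL the parameters `k = u m + v`, `m` any divisor of `n` with `m ≥ n ^ δ`;
* for all primes `p ≤ X` but `O(X / (log X) ^ U)`: for `k = u m + v`, `m` the order of `A` modulo `p`, for every integer `A` with
  `|A| ≥ 2`.

The proof: the starting theorem bounds the number of the exceptional `k` with a saving of every power of the logarithm. The
numbers with a divisor `m ≥ n ^ δ` in such a set are rare, by a dyadic decomposition; the order of `A` divides `p - 1`, and it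
is larger than `p ^ (1 / 4)` but for few primes (`Run7/h609/DV`).
-/

set_option autoImplicit false

namespace Pool.Agent.Results.MP_e426f4_ag.LargeDivisorsAndOrders

open Finset Polynomial

open Pool.Agent.Results.MP_e426f4_ag.ProductsOfConics (WB)

/-- the conditions on the data: `deg f ≥ 1`, the `aᵢ`, `bᵢ` are not zero, and `T` contains the primes `p ≤ 2 deg f` and those
dividing the leading coefficient of `f`, an `aᵢ` or a `bᵢ` -/
structure Conditions {r : ℕ} (f : ℤ[X]) (a b : Fin r → ℤ) (T : Finset Nat.Primes) : Prop where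
  degree : 1 ≤ f.natDegree
  a_ne_zero : ∀ i, a i ≠ 0
  b_ne_zero : ∀ i, b i ≠ 0
  bad : ∀ p : Nat.Primes, ((p : ℕ) ≤ 2 * f.natDegree ∨ ((p : ℕ) : ℤ) ∣ f.leadingCoeff * ∏ i, (a i * b i)) → p ∈ T

/-- **Theorem.** For all data with these conditions, all levels `N`, all integers `u ≠ 0`, `v` and all `U`: for all `n ≤ X` but
`O(X / (1 + log X) ^ U)` the property `WB` holds for `k = u m + v` for all divisors `m ≥ n ^ δ` of `n`, and for all primes `p ≤ X`
but `O(X / (1 + log X) ^ U)` which do not divide `A` it holds for `k = u m + v`, `m` the order of `A` modulo `p`. -/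
theorem result (r : ℕ) (f : ℤ[X]) (a b : Fin r → ℤ) (T : Finset Nat.Primes) (h : Conditions f a b T) (N : ℕ)
    (u v : ℤ) (hu : u ≠ 0) :
    (∀ δ : ℝ, 0 < δ → δ ≤ 1 → ∀ U : ℕ, ∃ C : ℝ, 0 < C ∧ ∀ X : ℕ, 1 ≤ X →
      ({n : ℕ | 1 ≤ n ∧ n ≤ X ∧ ¬ ∀ m : ℕ, m ∣ n → (n : ℝ) ^ δ ≤ m → WB f a b T N (u * m + v)}.ncard : ℝ) ≤
        C * X / (1 + Real.log X) ^ U) ∧
    ∀ A : ℤ, 2 ≤ |A| → ∀ U : ℕ, ∃ C : ℝ, 0 < C ∧ ∀ X : ℕ, 1 ≤ X →
      ({p : ℕ | p.Prime ∧ p ≤ X ∧ ¬ (p : ℤ) ∣ A ∧ ¬ WB f a b T N (u * (orderOf (A : ZMod p) : ℕ) + v)}.ncard : ℝ) ≤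
        C * X / (1 + Real.log X) ^ U := by
  classical
  have hB := Run7.h609.DV.of_int (P := fun k : ℤ => ¬ WB f a b T N k) (fun U => by
    obtain ⟨X₀, h1⟩ := ProductsOfConics.result r f h.degree a b h.a_ne_zero h.b_ne_zero T h.bad N U
    exact ⟨X₀, fun X hX => le_trans (le_of_eq (by congr!)) (h1 X hX)⟩) hu v
  constructor
  · intro δ hδ hδ1 U
    obtain ⟨C, hC, h1⟩ := Run7.h609.DV.div_log {m : ℕ | ¬ WB f a b T N (u * m + v)} hB hδ hδ1 U
    refine ⟨C, hC, fun X hX => le_trans ?_ (h1 X hX)⟩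
    have hsub : {n : ℕ | 1 ≤ n ∧ n ≤ X ∧ ¬ ∀ m : ℕ, m ∣ n → (n : ℝ) ^ δ ≤ m → WB f a b T N (u * m + v)} ⊆
        (((Icc 1 X).filter (fun n => ∃ m ∈ {m : ℕ | ¬ WB f a b T N (u * m + v)}, m ∣ n ∧ (n : ℝ) ^ δ ≤ m) : Finset ℕ) :
          Set ℕ) := by
      rintro n ⟨h1, h2, h3⟩
      rw [mem_coe, mem_filter, mem_Icc]
      push Not at h3
      obtain ⟨m, g1, g2, g3⟩ := h3
      exact ⟨⟨h1, h2⟩, m, g3, g1, g2⟩
    have h4 := Set.ncard_le_ncard hsub (finite_toSet _)
    rw [Set.ncard_coe_finset] at h4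
    refine le_trans (Nat.cast_le.2 h4) (le_of_eq ?_)
    congr!
  · intro A hA U
    obtain ⟨C, hC, h1⟩ := Run7.h609.DV.ord_log {m : ℕ | ¬ WB f a b T N (u * m + v)} hB hA U
    refine ⟨C, hC, fun X hX => le_trans ?_ (h1 X hX)⟩
    have hsub : {p : ℕ | p.Prime ∧ p ≤ X ∧ ¬ (p : ℤ) ∣ A ∧ ¬ WB f a b T N (u * (orderOf (A : ZMod p) : ℕ) + v)} ⊆
        (((Icc 1 X).filter (fun p : ℕ => p.Prime ∧ ¬ (p : ℤ) ∣ A ∧
          orderOf (A : ZMod p) ∈ {m : ℕ | ¬ WB f a b T N (u * m + v)}) : Finset ℕ) : Set ℕ) := by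
      rintro p ⟨h1, h2, h3, h4⟩
      rw [mem_coe, mem_filter, mem_Icc]
      exact ⟨⟨h1.one_lt.le, h2⟩, h1, h3, h4⟩
    have h4 := Set.ncard_le_ncard hsub (finite_toSet _)
    rw [Set.ncard_coe_finset] at h4
    refine le_trans (Nat.cast_le.2 h4) (le_of_eq ?_)
    congr!

end Pool.Agent.Results.MP_e426f4_ag.LargeDivisorsAndOrders
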