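import Mathlib
import Pool.Agent.Run7.h18.WA.W9

set_option autoImplicit false

/-!
# Fibrations in products of conics with several shifted polynomials: rational points near the local points orthogonal to the
vertical classes, for almost all constant terms and all polynomials, index sets, coefficients and finite sets of primes at once

For `a` in `[1, N] ^ k` let `V` be the variety `y_i ^ 2 - δ_i z_i ^ 2 = c_i ∏_{l ∈ I_i} (a_l + f_l(t))`, `i = 1, ..., r`, with all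
the `a_l + f_l(t)` different from `0`; its smooth proper models are rationally connected (they are fibred over the projective
line into products of conics). In general there is a Brauer-Manin obstruction; it comes from the classes `(δ_i, a_l + f_l(t))`
with `l ∈ I_i`, of which some combinations are unramified. Proof: primes `b_l + F_l(m)` for almost all `b` and all `F` at once
(project MK of this run), applied to the polynomials on a residue class: the values `a_l + f_l(q)` are primes up to the primes of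
`S`; at these primes the classes split by reciprocity and orthogonality, and then the theorem of Hasse and Minkowski and the
approximation files `TH204.HP`, `Y714.RC` of the starting files apply.
-/

open Polynomial Finset

namespace Pool.Agent.Results.MP_e426f4_ag.OrthogonalPointsAllData

/-- The point `(t, y, z)` with coordinates in the field `F` lies on
`V : y_i ^ 2 - δ_i z_i ^ 2 = c_i ∏_{l ∈ I_i} (a_l + f_l(t))`, `i = 1, ..., r`, with all the `a_l + f_l(t) ≠ 0`. -/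
def OnV {k r : ℕ} (f : Fin k → ℤ[X]) (a : Fin k → ℕ) (I : Fin r → Finset (Fin k)) (δ c : Fin r → ℤ) {F : Type} [Field F]
    (t : F) (y z : Fin r → F) : Prop :=
  (∀ l, (a l : F) + aeval t (f l) ≠ 0) ∧
    ∀ i, y i ^ 2 - (δ i : F) * z i ^ 2 = (c i : F) * ∏ l ∈ I i, ((a l : F) + aeval t (f l))

/-- `u` is of the form `y ^ 2 - δ z ^ 2` with `y`, `z` in the field `F`: for `δ, u ≠ 0` this says that the quaternion algebra
`(δ, u)` over `F` splits. -/
def IsNorm (δ : ℤ) {F : Type} [Field F] (u : F) : Prop := ∃ y z : F, y ^ 2 - (δ : F) * z ^ 2 = u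

open Classical in
/-- Orthogonality: for all `i` and all `l ∈ I_i` the sum over the `p` in `S` of the invariants of the quaternion algebra
`(δ_i, a_l + f_l(t_p))` over `ℚ_p` is `0`, that is, the number of the `p` in `S` for which it does not split is even. (At the real
place `a_l + f_l(t)` is positive for the `a` and `t` considered below, and there is no contribution.) -/
def Orthogonal {k r : ℕ} (f : Fin k → ℤ[X]) (a : Fin k → ℕ) (I : Fin r → Finset (Fin k)) (δ : Fin r → ℤ)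
    (S : Finset Nat.Primes) (t : (p : Nat.Primes) → ℚ_[(p : ℕ)]) : Prop :=
  ∀ i, ∀ l ∈ I i, Even (#(S.filter (fun p : Nat.Primes => ¬ IsNorm (δ i) ((a l : ℚ_[(p : ℕ)]) + aeval (t p) (f l)))))

/-- Given points: for `p` in `S` a point `(t_p, y_p, z_p)` of `V` over `ℚ_p` with coordinates of absolute value at most `p ^ n`
and `|a_l + f_l(t_p)| ≥ p ^ (-n)` (and `|c_i| ≥ p ^ (-n)`); a real point `(tr, yr, zr)` of `V` with `0 ≤ tr ≤ x` and
`|yr_i|, |zr_i| ≤ N ^ (#I_i / 2) (log N) ^ T`. -/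
def Given {k r : ℕ} (f : Fin k → ℤ[X]) (a : Fin k → ℕ) (I : Fin r → Finset (Fin k)) (δ c : Fin r → ℤ) (S : Finset Nat.Primes)
    (n N T x : ℕ) (t : (p : Nat.Primes) → ℚ_[(p : ℕ)]) (y z : (p : Nat.Primes) → Fin r → ℚ_[(p : ℕ)]) (tr : ℝ)
    (yr zr : Fin r → ℝ) : Prop :=
  (∀ p ∈ S, OnV f a I δ c (t p) (y p) (z p) ∧ ‖t p‖ ≤ ((p : ℕ) : ℝ) ^ n ∧
    (∀ i, ‖y p i‖ ≤ ((p : ℕ) : ℝ) ^ n ∧ ‖z p i‖ ≤ ((p : ℕ) : ℝ) ^ n ∧ (((p : ℕ) : ℝ) ^ n)⁻¹ ≤ ‖(c i : ℚ_[(p : ℕ)])‖) ∧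
    ∀ l, (((p : ℕ) : ℝ) ^ n)⁻¹ ≤ ‖(a l : ℚ_[(p : ℕ)]) + aeval (t p) (f l)‖) ∧
  OnV f a I δ c tr yr zr ∧ 0 ≤ tr ∧ tr ≤ x ∧
  ∀ i, |yr i| ≤ Real.sqrt N ^ #(I i) * Real.log N ^ T ∧ |zr i| ≤ Real.sqrt N ^ #(I i) * Real.log N ^ T

/-- Approximation: there is a rational point `(q, Y, Z)` of `V` whose coordinates are at distance at most `p ^ (-n)` from those of
the given `p`-adic point, for all `p` in `S`, with `0 < q ≤ x`, denominator of `q` at most `(log N) ^ C`,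
`|q - tr| ≤ x / (log N) ^ T` and `|Y_i - yr_i|, |Z_i - zr_i| ≤ N ^ (#I_i / 2) / (log N) ^ T`. -/
def Approximated {k r : ℕ} (f : Fin k → ℤ[X]) (a : Fin k → ℕ) (I : Fin r → Finset (Fin k)) (δ c : Fin r → ℤ)
    (S : Finset Nat.Primes) (n N T x C : ℕ) (t : (p : Nat.Primes) → ℚ_[(p : ℕ)])
    (y z : (p : Nat.Primes) → Fin r → ℚ_[(p : ℕ)]) (tr : ℝ) (yr zr : Fin r → ℝ) : Prop :=
  ∃ (q : ℚ) (Y Z : Fin r → ℚ), OnV f a I δ c q Y Z ∧
    (∀ p ∈ S, ‖(q : ℚ_[(p : ℕ)]) - t p‖ ≤ (((p : ℕ) : ℝ) ^ n)⁻¹ ∧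
      ∀ i, ‖(Y i : ℚ_[(p : ℕ)]) - y p i‖ ≤ (((p : ℕ) : ℝ) ^ n)⁻¹ ∧ ‖(Z i : ℚ_[(p : ℕ)]) - z p i‖ ≤ (((p : ℕ) : ℝ) ^ n)⁻¹) ∧
    0 < q ∧ (q : ℝ) ≤ x ∧ (q.den : ℝ) ≤ Real.log N ^ C ∧ |(q : ℝ) - tr| ≤ x / Real.log N ^ T ∧
    ∀ i, |(Y i : ℝ) - yr i| ≤ Real.sqrt N ^ #(I i) / Real.log N ^ T ∧ |(Z i : ℝ) - zr i| ≤ Real.sqrt N ^ #(I i) / Real.log N ^ T

/-- Let `k ≥ 1`, `d ≥ 1`, `T` and `U` be integers. There is a `C` such that for all large `N`, with `L = log N`, all but at most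
`N ^ k / L ^ U` of the vectors `(a_1, ..., a_k)` of integers in `[1, N]` have the following property: for ALL systems
`f_1, ..., f_k` of integer polynomials with `1 ≤ deg f_l ≤ d` and coefficients at most `L ^ T` in absolute value, ALL `r`, ALL
subsets `I_1, ..., I_r` of `{1, ..., k}`, ALL nonzero integers `δ_i` and `c_i`, ALL finite sets `S` of primes which contain `2`,
the primes up to `∑ deg f_l` and the primes dividing a leading coefficient of an `f_l` or some `δ_i c_i`, ALL `n ≥ 1` with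
`∏_{p ∈ S} p ^ n ≤ L ^ T` and ALL integers `x` with `N ^ (1/3) L ^ C ≤ x ^ (deg f_l) ≤ N / L ^ C` for all `l`, every given family of
points of `V` over the `ℚ_p`, `p` in `S`, and over `ℝ` which is orthogonal to the classes `(δ_i, a_l + f_l(t))`, `l ∈ I_i`, is
approximated by a rational point of `V`. -/
theorem result (k d T U : ℕ) (hk : 1 ≤ k) (hd : 1 ≤ d) : ∃ C N₀ : ℕ, ∀ N : ℕ, N₀ ≤ N →
    ∃ Ex : Finset (Fin k → ℕ), (Ex.card : ℝ) ≤ (N : ℝ) ^ k / Real.log N ^ U ∧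
      ∀ a : Fin k → ℕ, (∀ l, 1 ≤ a l ∧ a l ≤ N) → a ∉ Ex →
      ∀ f : Fin k → ℤ[X], (∀ l, 1 ≤ (f l).natDegree ∧ (f l).natDegree ≤ d ∧
        ∀ i, |(((f l).coeff i : ℤ) : ℝ)| ≤ Real.log N ^ T) →
      ∀ (r : ℕ) (I : Fin r → Finset (Fin k)) (δ c : Fin r → ℤ), (∀ i, δ i ≠ 0) → (∀ i, c i ≠ 0) →
      ∀ (S : Finset Nat.Primes) (n : ℕ), 1 ≤ n →
        (∀ p : Nat.Primes, ((p : ℕ) = 2 ∨ (p : ℕ) ≤ ∑ l, (f l).natDegree ∨ (∃ l, ((p : ℕ) : ℤ) ∣ (f l).leadingCoeff) ∨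
          ∃ i, ((p : ℕ) : ℤ) ∣ δ i * c i) → p ∈ S) →
        ((∏ p ∈ S, (p : ℕ) ^ n : ℕ) : ℝ) ≤ Real.log N ^ T →
      ∀ x : ℕ, (∀ l, (N : ℝ) ^ (1 / 3 : ℝ) * Real.log N ^ C ≤ (x : ℝ) ^ (f l).natDegree ∧
        (x : ℝ) ^ (f l).natDegree * Real.log N ^ C ≤ N) →
      ∀ (t : (p : Nat.Primes) → ℚ_[(p : ℕ)]) (y z : (p : Nat.Primes) → Fin r → ℚ_[(p : ℕ)]) (tr : ℝ) (yr zr : Fin r → ℝ),
        Given f a I δ c S n N T x t y z tr yr zr → Orthogonal f a I δ S t →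
        Approximated f a I δ c S n N T x C t y z tr yr zr := by
  obtain ⟨C, N₀, h⟩ := Pool.Agent.Run7.h18.WA.wa_prod k d T U hk hd
  refine ⟨C, N₀, fun N hN => ?_⟩
  obtain ⟨Ex, hE1, hE2⟩ := h N hN
  refine ⟨Ex, hE1, fun a ha haE f hf r I δ c hδ hc S n hn hS hD x hx t y z tr yr zr hG hO => ?_⟩
  obtain ⟨h1, h2, h3, h4, h5⟩ := hG
  exact hE2 a (by
    rw [Fintype.mem_piFinset]
    intro i
    exact mem_Icc.2 (ha i)) haE f hf r I δ c hδ hc S n hn (fun p hp => hS p (Or.inl hp))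
    (fun p hp => hS p (Or.inr (Or.inr (Or.inr (by
      obtain ⟨i, hi | hi⟩ := hp
      · exact ⟨i, hi.mul_right _⟩
      · exact ⟨i, hi.mul_left _⟩)))))
    (fun p hp => hS p (Or.inr (Or.inl hp))) (fun p hp => hS p (Or.inr (Or.inr (Or.inl hp)))) hD x hx t y z tr yr zr h1
    (fun i l hl => by
      have h6 := hO i l hl
      unfold IsNorm at h6
      convert h6) h2 h3 h4 h5

end Pool.Agent.Results.MP_e426f4_ag.OrthogonalPointsAllData
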